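import Pool.Agent.H30.VGH.Targets2

/-!
# The dimension count
-/

set_option autoImplicit false

namespace Pool.Agent.H19.VGH

open Pool.Agent.H30.VGH

section
variable {L : Type} [Field L] {n : ℕ}

/-- the restriction of `F` to the line `u T + w` -/
noncomputable def lin (u w : Fin (n + 1) → L) (F : MvPolynomial (Fin (n + 1)) L) : Polynomial L :=
  MvPolynomial.aeval (fun i => Polynomial.C (u i) * Polynomial.X + Polynomial.C (w i)) F

theorem eval_lin (u w : Fin (n + 1) → L) (F : MvPolynomial (Fin (n + 1)) L) (r : L) :
    (lin u w F).eval r = MvPolynomial.eval (fun i => u i * r + w i) F := by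
  unfold lin
  induction F using MvPolynomial.induction_on with
  | C c => simp
  | add p q hp hq => rw [map_add, map_add, Polynomial.eval_add, hp, hq]
  | mul_X p i hp => simp [hp]

theorem der_lin (u w : Fin (n + 1) → L) (F : MvPolynomial (Fin (n + 1)) L) :
    Polynomial.derivative (lin u w F) =
      ∑ j, Polynomial.C (u j) * lin u w (MvPolynomial.pderiv j F) := by
  unfold lin
  induction F using MvPolynomial.induction_on with
  | C c => simp
  | add p q hp hq =>
    simp only [map_add, mul_add, Finset.sum_add_distrib, hp, hq]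
  | mul_X p i hp =>
    have h0 : ∀ j, MvPolynomial.pderiv j (p * MvPolynomial.X i) =
        p * (if i = j then 1 else 0) + MvPolynomial.pderiv j p * MvPolynomial.X i := by
      intro j
      rw [Derivation.leibniz, MvPolynomial.pderiv_X, smul_eq_mul, smul_eq_mul, Pi.single_apply]
      ring
    rw [map_mul, MvPolynomial.aeval_X, Polynomial.derivative_mul, hp]
    have h1 : Polynomial.derivative (Polynomial.C (u i) * Polynomial.X + Polynomial.C (w i)) =
        Polynomial.C (u i) := by simp
    rw [h1]
    have h2 : ∀ j, Polynomial.C (u j) *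
        MvPolynomial.aeval (fun i => Polynomial.C (u i) * Polynomial.X + Polynomial.C (w i))
          (MvPolynomial.pderiv j (p * MvPolynomial.X i)) =
        (if i = j then Polynomial.C (u i) * MvPolynomial.aeval
          (fun i => Polynomial.C (u i) * Polynomial.X + Polynomial.C (w i)) p else 0) +
        (Polynomial.C (u j) * MvPolynomial.aeval
          (fun i => Polynomial.C (u i) * Polynomial.X + Polynomial.C (w i))
            (MvPolynomial.pderiv j p)) *
          (Polynomial.C (u i) * Polynomial.X + Polynomial.C (w i)) := by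
      intro j
      rw [h0 j, map_add, map_mul, map_mul, MvPolynomial.aeval_X]
      by_cases hj : i = j
      · subst hj
        rw [if_pos rfl, if_pos rfl, map_one]
        ring
      · rw [if_neg hj, if_neg hj, map_zero]
        ring
    rw [Finset.sum_congr rfl fun j _ => h2 j, Finset.sum_add_distrib, Finset.sum_ite_eq,
      if_pos (Finset.mem_univ i), ← Finset.sum_mul]
    ring

theorem exists_hom {x y : Fin (n + 1) → L} (hp : plu x y ≠ 0) (d : ℕ) (g : Polynomial L)
    (hg : g.natDegree < d + 1) : ∃ G : MvPolynomial (Fin (n + 1)) L, G.IsHomogeneous d ∧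
      ∀ s, MvPolynomial.eval (lpt x y s 1) G = g.eval s := by
  obtain ⟨⟨i, j⟩, hij⟩ := Function.ne_iff.1 hp
  have hδ : x i * y j - x j * y i ≠ 0 := hij
  let σ : MvPolynomial (Fin (n + 1)) L := MvPolynomial.C (y j / (x i * y j - x j * y i)) *
    MvPolynomial.X i - MvPolynomial.C (y i / (x i * y j - x j * y i)) * MvPolynomial.X j
  let τ : MvPolynomial (Fin (n + 1)) L := MvPolynomial.C (x i / (x i * y j - x j * y i)) *
    MvPolynomial.X j - MvPolynomial.C (x j / (x i * y j - x j * y i)) * MvPolynomial.X i
  have hσ : σ.IsHomogeneous 1 :=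
    (MvPolynomial.isHomogeneous_C_mul_X _ _).sub (MvPolynomial.isHomogeneous_C_mul_X _ _)
  have hτ : τ.IsHomogeneous 1 :=
    (MvPolynomial.isHomogeneous_C_mul_X _ _).sub (MvPolynomial.isHomogeneous_C_mul_X _ _)
  have eσ : ∀ s, MvPolynomial.eval (lpt x y s 1) σ = s := by
    intro s
    simp only [σ, map_sub, map_mul, MvPolynomial.eval_C, MvPolynomial.eval_X, lpt]
    have h : y j / (x i * y j - x j * y i) * (s * x i + 1 * y i) -
        y i / (x i * y j - x j * y i) * (s * x j + 1 * y j) =
        s * ((x i * y j - x j * y i) / (x i * y j - x j * y i)) := by ring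
    rw [h, div_self hδ, mul_one]
  have eτ : ∀ s, MvPolynomial.eval (lpt x y s 1) τ = 1 := by
    intro s
    simp only [τ, map_sub, map_mul, MvPolynomial.eval_C, MvPolynomial.eval_X, lpt]
    have h : x i / (x i * y j - x j * y i) * (s * x j + 1 * y j) -
        x j / (x i * y j - x j * y i) * (s * x i + 1 * y i) =
        (x i * y j - x j * y i) / (x i * y j - x j * y i) := by ring
    rw [h, div_self hδ]
  refine ⟨∑ c ∈ Finset.range (d + 1), MvPolynomial.C (g.coeff c) * (σ ^ c * τ ^ (d - c)), ?_, ?_⟩
  · refine MvPolynomial.IsHomogeneous.sum _ _ _ fun c hc => ?_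
    have h1 := (MvPolynomial.isHomogeneous_C (Fin (n + 1)) (g.coeff c)).mul
      ((hσ.pow c).mul (hτ.pow (d - c)))
    have h2 : 0 + (1 * c + 1 * (d - c)) = d := by
      have := Finset.mem_range.1 hc
      omega
    rw [h2] at h1
    exact h1
  · intro s
    rw [map_sum, Polynomial.eval_eq_sum_range' hg]
    refine Finset.sum_congr rfl fun c _ => ?_
    rw [map_mul, map_mul, map_pow, map_pow, eσ, eτ, MvPolynomial.eval_C, one_pow, mul_one]

/-- the linear map of the dimension count -/
noncomputable def PhiM (P : Fin (n + 1) → Polynomial L) (R : Polynomial L) :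
    ((Fin (n + 1) → L) × (Fin 3 → L)) →ₗ[L] Polynomial L where
  toFun w := ∑ j, Polynomial.C (w.1 j) * P j + R * (Polynomial.C (w.2 0) * Polynomial.X ^ 2 +
    Polynomial.C (w.2 1) * Polynomial.X + Polynomial.C (w.2 2))
  map_add' w w' := by
    simp only [Prod.fst_add, Prod.snd_add, Pi.add_apply, Polynomial.C_add, add_mul,
      Finset.sum_add_distrib]
    ring
  map_smul' c w := by
    simp only [Prod.smul_fst, Prod.smul_snd, Pi.smul_apply, smul_eq_mul, Polynomial.C_mul,
      RingHom.id_apply, Polynomial.smul_eq_C_mul, mul_add, Finset.mul_sum]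
    congr 1
    · exact Finset.sum_congr rfl fun j _ => by ring
    · ring

end

theorem pf_XDM : T_XDM := by
  intro L _ _ n d F x y a b l m _ hp hab hnd hF hG
  classical
  let P : Fin (n + 1) → Polynomial L := fun j => lin x y (MvPolynomial.pderiv j F)
  let ll : Polynomial L := Polynomial.C (l 0) * Polynomial.X + Polynomial.C (l 1)
  let mm : Polynomial L := Polynomial.C (m 0) * Polynomial.X + Polynomial.C (m 1)
  let R : Polynomial L := ll ^ a * mm ^ b
  have elp : ∀ s : L, lpt x y s 1 = fun i => x i * s + y i := by
    intro s; funext i; unfold lpt; ring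
  -- surjectivity
  have hsurj : Polynomial.degreeLT L (d + 1) ≤ LinearMap.range (PhiM P R) := by
    intro g hg
    have hgd : g.natDegree < d + 1 := by
      rw [Polynomial.mem_degreeLT] at hg
      by_cases h0 : g = 0
      · rw [h0, Polynomial.natDegree_zero]; omega
      · exact (Polynomial.natDegree_lt_iff_degree_lt h0).2 hg
    obtain ⟨G, hGh, hGe⟩ := exists_hom hp d g hgd
    obtain ⟨z, q, hz⟩ := hG G hGh
    refine ⟨(-z, q), Polynomial.funext fun s => ?_⟩
    have h1 := hz s 1
    rw [hGe s] at h1
    have h2 : ∀ j, (P j).eval s = MvPolynomial.eval (lpt x y s 1) (MvPolynomial.pderiv j F) := by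
      intro j
      rw [elp s]
      exact eval_lin x y _ s
    change Polynomial.eval s (∑ j, Polynomial.C ((-z) j) * P j + R *
      (Polynomial.C (q 0) * Polynomial.X ^ 2 + Polynomial.C (q 1) * Polynomial.X +
        Polynomial.C (q 2))) = Polynomial.eval s g
    have h3 : Polynomial.eval s (∑ j, Polynomial.C ((-z) j) * P j) =
        - ∑ j, MvPolynomial.eval (lpt x y s 1) (MvPolynomial.pderiv j F) * z j := by
      rw [Polynomial.eval_finsetSum, ← Finset.sum_neg_distrib]
      refine Finset.sum_congr rfl fun j _ => ?_
      rw [Polynomial.eval_mul, Polynomial.eval_C, h2, Pi.neg_apply]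
      ring
    rw [Polynomial.eval_add, h3]
    simp only [R, ll, mm, Polynomial.eval_mul, Polynomial.eval_add, Polynomial.eval_pow,
      Polynomial.eval_C, Polynomial.eval_X]
    linear_combination -h1
  -- the kernel
  have hkx : PhiM P R (x, ![0, -((a + 1) * l 0 * m 0 + (b + 1) * m 0 * l 0),
      -((a + 1) * l 0 * m 1 + (b + 1) * m 0 * l 1)]) = 0 := by
    have h1 : lin x y F = ll ^ (a + 1) * mm ^ (b + 1) := by
      refine Polynomial.funext fun s => ?_
      rw [eval_lin, ← elp s, hF s 1]
      simp only [ll, mm, Polynomial.eval_mul, Polynomial.eval_add, Polynomial.eval_pow,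
        Polynomial.eval_C, Polynomial.eval_X]
      ring
    have h2 := der_lin x y F
    rw [h1] at h2
    have h3 : Polynomial.derivative (ll ^ (a + 1) * mm ^ (b + 1)) =
        ll ^ a * mm ^ b * (((a : Polynomial L) + 1) * Polynomial.C (l 0) * mm +
          ((b : Polynomial L) + 1) * Polynomial.C (m 0) * ll) := by
      rw [Polynomial.derivative_mul, Polynomial.derivative_pow, Polynomial.derivative_pow]
      have e1 : Polynomial.derivative ll = Polynomial.C (l 0) := by simp [ll]
      have e2 : Polynomial.derivative mm = Polynomial.C (m 0) := by simp [mm]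
      rw [e1, e2, Nat.add_sub_cancel, Nat.add_sub_cancel]
      simp only [Nat.cast_add, Nat.cast_one, map_add, map_natCast, map_one]
      ring
    change ∑ j, Polynomial.C (x j) * lin x y (MvPolynomial.pderiv j F) + R * _ = 0
    rw [← h2, h3]
    refine Polynomial.funext fun s => ?_
    simp [R, ll, mm]
    ring
  have hky : PhiM P R (y, ![0, -((a + 1) * l 1 * m 0 + (b + 1) * m 1 * l 0),
      -((a + 1) * l 1 * m 1 + (b + 1) * m 1 * l 1)]) = 0 := by
    refine Polynomial.funext fun s => ?_
    let l' : Polynomial L := Polynomial.C (l 1) * Polynomial.X + Polynomial.C (l 0 * s)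
    let m' : Polynomial L := Polynomial.C (m 1) * Polynomial.X + Polynomial.C (m 0 * s)
    have h1 : lin y (fun i => s * x i) F = l' ^ (a + 1) * m' ^ (b + 1) := by
      refine Polynomial.funext fun t => ?_
      have e : (fun i => y i * t + s * x i) = lpt x y s t := by
        funext i; unfold lpt; ring
      rw [eval_lin, e, hF s t]
      simp only [l', m', Polynomial.eval_mul, Polynomial.eval_add, Polynomial.eval_pow,
        Polynomial.eval_C, Polynomial.eval_X]
      ring
    have h2 := der_lin y (fun i => s * x i) F
    rw [h1] at h2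
    have h3 : Polynomial.derivative (l' ^ (a + 1) * m' ^ (b + 1)) =
        l' ^ a * m' ^ b * (((a : Polynomial L) + 1) * Polynomial.C (l 1) * m' +
          ((b : Polynomial L) + 1) * Polynomial.C (m 1) * l') := by
      rw [Polynomial.derivative_mul, Polynomial.derivative_pow, Polynomial.derivative_pow]
      have e1 : Polynomial.derivative l' = Polynomial.C (l 1) := by simp [l']
      have e2 : Polynomial.derivative m' = Polynomial.C (m 1) := by simp [m']
      rw [e1, e2, Nat.add_sub_cancel, Nat.add_sub_cancel]
      simp only [Nat.cast_add, Nat.cast_one, map_add, map_natCast, map_one]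
      ring
    rw [h3] at h2
    have h4 := congrArg (Polynomial.eval 1) h2
    rw [Polynomial.eval_finsetSum] at h4
    have h5 : ∀ j, Polynomial.eval s (P j) =
        Polynomial.eval 1 (lin y (fun i => s * x i) (MvPolynomial.pderiv j F)) := by
      intro j
      rw [eval_lin, eval_lin]
      congr 1
      have e : (fun i => x i * s + y i) = fun i => y i * 1 + s * x i := by
        funext i; ring
      rw [e]
    change Polynomial.eval s (∑ j, Polynomial.C (y j) * P j + R * _) = _
    rw [Polynomial.eval_add, Polynomial.eval_finsetSum]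
    have h6 : ∑ j, Polynomial.eval s (Polynomial.C (y j) * P j) =
        ∑ j, Polynomial.eval 1 (Polynomial.C (y j) *
          lin y (fun i => s * x i) (MvPolynomial.pderiv j F)) := by
      refine Finset.sum_congr rfl fun j _ => ?_
      rw [Polynomial.eval_mul, Polynomial.eval_mul, Polynomial.eval_C, Polynomial.eval_C, h5]
    rw [h6, ← h4]
    simp [R, ll, mm, l', m']
    ring
  -- the dimensions
  have hdim := LinearMap.finrank_range_add_finrank_ker (PhiM P R)
  have h1 : d + 1 ≤ Module.finrank L (LinearMap.range (PhiM P R)) := by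
    have h2 : Module.finrank L (Polynomial.degreeLT L (d + 1)) = d + 1 := by
      rw [(Polynomial.degreeLTEquiv L (d + 1)).finrank_eq, Module.finrank_fin_fun]
    calc d + 1 = Module.finrank L (Polynomial.degreeLT L (d + 1)) := h2.symm
      _ ≤ _ := Submodule.finrank_mono hsurj
  have h2 : 2 ≤ Module.finrank L (LinearMap.ker (PhiM P R)) := by
    let w : Fin 2 → LinearMap.ker (PhiM P R) := ![⟨_, hkx⟩, ⟨_, hky⟩]
    have hw : LinearIndependent L w := by
      rw [LinearIndependent.pair_iff]
      intro s t hst
      have h3 := congrArg (fun u : LinearMap.ker (PhiM P R) => u.1.1) hst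
      have h4 : ∀ i, s * x i + t * y i = 0 := fun i => congrFun h3 i
      obtain ⟨⟨i, j⟩, hij⟩ := Function.ne_iff.1 hp
      have hδ : x i * y j - x j * y i ≠ 0 := hij
      constructor
      · have : s * (x i * y j - x j * y i) = 0 := by
          linear_combination y j * h4 i - y i * h4 j
        exact (mul_eq_zero.1 this).resolve_right hδ
      · have : t * (x i * y j - x j * y i) = 0 := by
          linear_combination x i * h4 j - x j * h4 i
        exact (mul_eq_zero.1 this).resolve_right hδ
    have h5 := hw.fintype_card_le_finrank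
    rwa [Fintype.card_fin] at h5
  have h3 : Module.finrank L ((Fin (n + 1) → L) × (Fin 3 → L)) = n + 1 + 3 := by
    rw [Module.finrank_prod, Module.finrank_fin_fun, Module.finrank_fin_fun]
  omega

end Pool.Agent.H19.VGH
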