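import Pool.Agent.H19.VGH.XDM

/-!
# Derivations of the coefficients
-/

set_option autoImplicit false

namespace Pool.Agent.H19.VGH

open Pool.Agent.H30.VGH Pool.Agent.H27.LV

section
variable {L : Type} [Field L] {n : ℕ}

/-- the derivation applied to the coefficients -/
noncomputable def cE (D : Derivation ℤ L L) (H : MvPolynomial (Fin (n + 1)) L) :
    MvPolynomial (Fin (n + 1)) L :=
  ∑ m ∈ H.support, MvPolynomial.monomial m (D (H.coeff m))

theorem coeff_cE (D : Derivation ℤ L L) (H : MvPolynomial (Fin (n + 1)) L)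
    (m : Fin (n + 1) →₀ ℕ) : (cE D H).coeff m = D (H.coeff m) := by
  classical
  unfold cE
  rw [MvPolynomial.coeff_sum]
  by_cases hm : m ∈ H.support
  · rw [Finset.sum_eq_single m]
    · rw [MvPolynomial.coeff_monomial, if_pos rfl]
    · intro j _ hj
      rw [MvPolynomial.coeff_monomial, if_neg hj]
    · intro h; exact absurd hm h
  · rw [Finset.sum_eq_zero, MvPolynomial.notMem_support_iff.1 hm, map_zero]
    intro j hj
    rw [MvPolynomial.coeff_monomial, if_neg]
    rintro rfl
    exact hm hj

theorem cE_add (D : Derivation ℤ L L) (H H' : MvPolynomial (Fin (n + 1)) L) :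
    cE D (H + H') = cE D H + cE D H' := by
  ext m
  rw [MvPolynomial.coeff_add, coeff_cE, coeff_cE, coeff_cE, MvPolynomial.coeff_add, map_add]

theorem cE_C (D : Derivation ℤ L L) (c : L) :
    cE (n := n) D (MvPolynomial.C c) = MvPolynomial.C (D c) := by
  classical
  ext m
  rw [coeff_cE, MvPolynomial.coeff_C, MvPolynomial.coeff_C]
  split_ifs
  · rfl
  · exact map_zero D

theorem cE_mul_X (D : Derivation ℤ L L) (H : MvPolynomial (Fin (n + 1)) L) (i : Fin (n + 1)) :
    cE D (H * MvPolynomial.X i) = cE D H * MvPolynomial.X i := by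
  classical
  ext m
  rw [coeff_cE, MvPolynomial.coeff_mul_X', MvPolynomial.coeff_mul_X', coeff_cE]
  split_ifs
  · rfl
  · exact map_zero D

theorem D_eval (D : Derivation ℤ L L) (p : Fin (n + 1) → L) (H : MvPolynomial (Fin (n + 1)) L) :
    D (MvPolynomial.eval p H) = MvPolynomial.eval p (cE D H) +
      ∑ j, MvPolynomial.eval p (MvPolynomial.pderiv j H) * D (p j) := by
  induction H using MvPolynomial.induction_on with
  | C c => rw [cE_C]; simp
  | add H H' h h' =>
    rw [cE_add]
    simp only [map_add, add_mul, Finset.sum_add_distrib, h, h']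
    ring
  | mul_X H i h =>
    have h0 : ∀ j, MvPolynomial.pderiv j (H * MvPolynomial.X i) =
        H * (if i = j then 1 else 0) + MvPolynomial.pderiv j H * MvPolynomial.X i := by
      intro j
      rw [Derivation.leibniz, MvPolynomial.pderiv_X, smul_eq_mul, smul_eq_mul, Pi.single_apply]
      ring
    have h2 : ∀ j, MvPolynomial.eval p (MvPolynomial.pderiv j (H * MvPolynomial.X i)) * D (p j) =
        (if i = j then MvPolynomial.eval p H * D (p i) else 0) +
        (MvPolynomial.eval p (MvPolynomial.pderiv j H) * D (p j)) * p i := by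
      intro j
      rw [h0 j, map_add, map_mul, map_mul, MvPolynomial.eval_X]
      by_cases hj : i = j
      · subst hj
        rw [if_pos rfl, if_pos rfl, map_one]
        ring
      · rw [if_neg hj, if_neg hj, map_zero]
        ring
    have h5 : ∀ H' : MvPolynomial (Fin (n + 1)) L,
        MvPolynomial.eval p (H' * MvPolynomial.X i) = MvPolynomial.eval p H' * p i := by
      intro H'
      rw [RingHom.map_mul, MvPolynomial.eval_X]
    rw [Finset.sum_congr rfl fun j _ => h2 j, Finset.sum_add_distrib, Finset.sum_ite_eq,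
      if_pos (Finset.mem_univ i), ← Finset.sum_mul, cE_mul_X, h5, h5, Derivation.leibniz, h,
      smul_eq_mul, smul_eq_mul]
    ring

theorem poly_eq [CharZero L] {P Q : Polynomial L} (h : ∀ r : ℕ, P.eval (r : L) = Q.eval (r : L)) :
    P = Q := by
  refine Polynomial.eq_of_infinite_eval_eq P Q ?_
  refine Set.Infinite.mono (s := Set.range (Nat.cast : ℕ → L)) ?_
    (Set.infinite_range_of_injective Nat.cast_injective)
  rintro _ ⟨r, rfl⟩
  exact h r

theorem extend [CharZero L] (G F' : MvPolynomial (Fin (n + 1)) L) (x y z : Fin (n + 1) → L)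
    (a b : ℕ) (l m : Fin 2 → L) (q : Fin 3 → L)
    (h : ∀ s t : ℕ, MvPolynomial.eval (lpt x y (s : L) (t : L)) G + (t : L) *
      ∑ j, MvPolynomial.eval (lpt x y (s : L) (t : L)) (MvPolynomial.pderiv j F') * z j =
        (l 0 * s + l 1 * t) ^ a * (m 0 * s + m 1 * t) ^ b *
          (q 0 * (s : L) ^ 2 + q 1 * s * t + q 2 * (t : L) ^ 2)) (s t : L) :
    MvPolynomial.eval (lpt x y s t) G + t *
      ∑ j, MvPolynomial.eval (lpt x y s t) (MvPolynomial.pderiv j F') * z j =
        (l 0 * s + l 1 * t) ^ a * (m 0 * s + m 1 * t) ^ b *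
          (q 0 * s ^ 2 + q 1 * s * t + q 2 * t ^ 2) := by
  have e1 : ∀ s t : L, (fun i => x i * s + t * y i) = lpt x y s t := by
    intro s t; funext i; unfold lpt; ring
  have e2 : ∀ s t : L, (fun i => y i * t + s * x i) = lpt x y s t := by
    intro s t; funext i; unfold lpt; ring
  have h1 : ∀ (t : ℕ) (s : L), MvPolynomial.eval (lpt x y s (t : L)) G + (t : L) *
      ∑ j, MvPolynomial.eval (lpt x y s (t : L)) (MvPolynomial.pderiv j F') * z j =
        (l 0 * s + l 1 * t) ^ a * (m 0 * s + m 1 * t) ^ b *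
          (q 0 * s ^ 2 + q 1 * s * t + q 2 * (t : L) ^ 2) := by
    intro t s
    let P : Polynomial L := lin x (fun i => t * y i) G + Polynomial.C (t : L) *
      ∑ j, lin x (fun i => t * y i) (MvPolynomial.pderiv j F') * Polynomial.C (z j)
    let Q : Polynomial L := (Polynomial.C (l 0) * Polynomial.X + Polynomial.C (l 1 * t)) ^ a *
      (Polynomial.C (m 0) * Polynomial.X + Polynomial.C (m 1 * t)) ^ b *
      (Polynomial.C (q 0) * Polynomial.X ^ 2 + Polynomial.C (q 1 * t) * Polynomial.X +
        Polynomial.C (q 2 * (t : L) ^ 2))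
    have hP : ∀ r : L, P.eval r = MvPolynomial.eval (lpt x y r (t : L)) G + (t : L) *
        ∑ j, MvPolynomial.eval (lpt x y r (t : L)) (MvPolynomial.pderiv j F') * z j := by
      intro r
      simp only [P, Polynomial.eval_add, Polynomial.eval_mul, Polynomial.eval_C,
        Polynomial.eval_finsetSum, eval_lin, e1]
    have hQ : ∀ r : L, Q.eval r = (l 0 * r + l 1 * t) ^ a * (m 0 * r + m 1 * t) ^ b *
          (q 0 * r ^ 2 + q 1 * r * t + q 2 * (t : L) ^ 2) := by
      intro r
      simp only [Q, Polynomial.eval_add, Polynomial.eval_mul, Polynomial.eval_C,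
        Polynomial.eval_pow, Polynomial.eval_X]
      ring
    have hPQ : P = Q := poly_eq fun r => by rw [hP, hQ]; exact h r t
    rw [← hP, ← hQ, hPQ]
  let P : Polynomial L := lin y (fun i => s * x i) G + Polynomial.X *
    ∑ j, lin y (fun i => s * x i) (MvPolynomial.pderiv j F') * Polynomial.C (z j)
  let Q : Polynomial L := (Polynomial.C (l 0 * s) + Polynomial.C (l 1) * Polynomial.X) ^ a *
    (Polynomial.C (m 0 * s) + Polynomial.C (m 1) * Polynomial.X) ^ b *
    (Polynomial.C (q 0 * s ^ 2) + Polynomial.C (q 1 * s) * Polynomial.X +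
      Polynomial.C (q 2) * Polynomial.X ^ 2)
  have hP : ∀ r : L, P.eval r = MvPolynomial.eval (lpt x y s r) G + r *
      ∑ j, MvPolynomial.eval (lpt x y s r) (MvPolynomial.pderiv j F') * z j := by
    intro r
    simp only [P, Polynomial.eval_add, Polynomial.eval_mul, Polynomial.eval_C, Polynomial.eval_X,
      Polynomial.eval_finsetSum, eval_lin, e2]
  have hQ : ∀ r : L, Q.eval r = (l 0 * s + l 1 * r) ^ a * (m 0 * s + m 1 * r) ^ b *
        (q 0 * s ^ 2 + q 1 * s * r + q 2 * r ^ 2) := by
    intro r
    simp only [Q, Polynomial.eval_add, Polynomial.eval_mul, Polynomial.eval_C,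
      Polynomial.eval_pow, Polynomial.eval_X]
  have hPQ : P = Q := poly_eq fun r => by rw [hP, hQ]; exact h1 r s
  rw [← hP, ← hQ, hPQ]

end

theorem pf_XDR (hDEX : T_DEX) : T_XDR := by
  intro k L _ _ _ _ n d F x y a b l m hF hc hx hab hE G hG
  have : CharZero L := charZero_of_injective_algebraMap (algebraMap k L).injective
  have hi : AlgebraicIndependent ℚ (Sum.elim x (algebraMap k L ∘
      fun M : Mon (n + 1) d => MvPolynomial.coeff (fs M.1) F)) := hc.sumElim_comp hx
  obtain ⟨D, hD⟩ := hDEX L _ _ hi (Sum.elim (fun _ => 0)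
    (fun M : Mon (n + 1) d => MvPolynomial.coeff (fs M.1) G))
  have hDx : ∀ i, D (x i) = 0 := fun i => hD (Sum.inl i)
  have hDc : ∀ M : Mon (n + 1) d, D (algebraMap k L (MvPolynomial.coeff (fs M.1) F)) =
      MvPolynomial.coeff (fs M.1) G := fun M => hD (Sum.inr M)
  have hcE : cE D (MvPolynomial.map (algebraMap k L) F) = G := by
    ext e
    rw [coeff_cE, MvPolynomial.coeff_map]
    by_cases he : e.degree = d
    · have h1 : ∑ i, e i = d := by
        rw [← he, Finsupp.degree_eq_sum]
      have h2 := hDc ⟨fun i => e i, h1⟩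
      have h3 : fs (fun i => e i) = e := by
        ext i; rfl
      change D (algebraMap k L (MvPolynomial.coeff (fs fun i => e i) F)) =
        MvPolynomial.coeff (fs fun i => e i) G at h2
      rwa [h3] at h2
    · rw [hF.coeff_eq_zero he, hG.coeff_eq_zero he, map_zero, map_zero]
  refine ⟨fun j => D (y j), ![(a + 1) * D (l 0) * m 0 + (b + 1) * l 0 * D (m 0),
    (a + 1) * (D (l 0) * m 1 + D (l 1) * m 0) + (b + 1) * (l 0 * D (m 1) + l 1 * D (m 0)),
    (a + 1) * D (l 1) * m 1 + (b + 1) * l 1 * D (m 1)], ?_⟩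
  refine extend G _ x y _ a b l m _ fun s t => ?_
  have h1 := congrArg D (hE (s : L) (t : L))
  rw [D_eval, hcE] at h1
  have h2 : ∀ j, D (lpt x y (s : L) (t : L) j) = t * D (y j) := by
    intro j
    unfold lpt
    rw [map_add, Derivation.leibniz, Derivation.leibniz, hDx, Derivation.map_natCast,
      Derivation.map_natCast, smul_eq_mul, smul_eq_mul, smul_eq_mul, smul_eq_mul]
    ring
  have h3 : ∑ j, MvPolynomial.eval (lpt x y (s : L) (t : L))
      (MvPolynomial.pderiv j (MvPolynomial.map (algebraMap k L) F)) *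
        D (lpt x y (s : L) (t : L) j) = t * ∑ j, MvPolynomial.eval (lpt x y (s : L) (t : L))
      (MvPolynomial.pderiv j (MvPolynomial.map (algebraMap k L) F)) * D (y j) := by
    rw [Finset.mul_sum]
    refine Finset.sum_congr rfl fun j _ => ?_
    rw [h2]
    ring
  rw [h3] at h1
  rw [h1]
  have h4 : ∀ u v : L, D (u * s + v * t) = D u * s + D v * t := by
    intro u v
    rw [map_add, Derivation.leibniz, Derivation.leibniz, Derivation.map_natCast,
      Derivation.map_natCast, smul_eq_mul, smul_eq_mul, smul_eq_mul, smul_eq_mul]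
    ring
  rw [Derivation.leibniz, Derivation.leibniz_pow, Derivation.leibniz_pow, h4, h4,
    Nat.add_sub_cancel, Nat.add_sub_cancel]
  simp only [smul_eq_mul, nsmul_eq_mul, Matrix.cons_val_zero, Matrix.cons_val_one,
    Matrix.cons_val, Nat.cast_add, Nat.cast_one]
  ring

end Pool.Agent.H19.VGH
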