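import Pool.Agent.H30.VGH.Targets2

/-!
# Elimination
-/

set_option autoImplicit false

namespace Pool.Agent.H19.VGH

open Pool.Agent.H30.VGH MvPolynomial

theorem pf_ELI : T_ELI := by
  intro k _ σ τ I
  by_cases h : ∃ Φ : MvPolynomial σ k, Φ ≠ 0 ∧ rename Sum.inl Φ ∈ Ideal.span I
  · exact Or.inl h
  right
  push Not at h
  let S : Submonoid (MvPolynomial (σ ⊕ τ) k) :=
    (nonZeroDivisors (MvPolynomial σ k)).map (rename (R := k) (Sum.inl : σ → σ ⊕ τ)).toRingHom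
  have hd : Disjoint ((Ideal.span I : Ideal (MvPolynomial (σ ⊕ τ) k)) : Set _)
      (S : Set (MvPolynomial (σ ⊕ τ) k)) := by
    rw [Set.disjoint_left]
    rintro f hf ⟨Φ, hΦ, rfl⟩
    exact h Φ (nonZeroDivisors.ne_zero hΦ) hf
  obtain ⟨P, hP, hIP, hPS⟩ := Ideal.exists_le_prime_disjoint _ S hd
  haveI := hP
  let φ : MvPolynomial (σ ⊕ τ) k →ₐ[k] FractionRing (MvPolynomial (σ ⊕ τ) k ⧸ P) :=
    (IsScalarTower.toAlgHom k (MvPolynomial (σ ⊕ τ) k ⧸ P) _).comp (Ideal.Quotient.mkₐ k P)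
  have hφ : ∀ f, φ f = 0 ↔ f ∈ P := by
    intro f
    change algebraMap (MvPolynomial (σ ⊕ τ) k ⧸ P) (FractionRing (MvPolynomial (σ ⊕ τ) k ⧸ P))
      (Ideal.Quotient.mk P f) = 0 ↔ f ∈ P
    rw [FaithfulSMul.algebraMap_eq_zero_iff, Ideal.Quotient.eq_zero_iff_mem]
  have he : aeval (Sum.elim (fun i => φ (X (Sum.inl i))) (fun j => φ (X (Sum.inr j)))) = φ := by
    refine algHom_ext fun i => ?_
    rw [aeval_X]
    rcases i with i | j
    · rfl
    · rfl
  refine ⟨FractionRing (MvPolynomial (σ ⊕ τ) k ⧸ P), inferInstance, inferInstance,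
    fun i => φ (X (Sum.inl i)), fun j => φ (X (Sum.inr j)), ?_, fun f hf => ?_⟩
  · rw [algebraicIndependent_iff]
    intro Φ hΦ
    by_contra h0
    have h1 : φ (rename Sum.inl Φ) = 0 := by
      rw [← he, aeval_rename]
      exact hΦ
    rw [hφ] at h1
    exact (Set.disjoint_left.1 hPS) h1 ⟨Φ, mem_nonZeroDivisors_of_ne_zero h0, rfl⟩
  · rw [he, hφ]
    exact hIP (Ideal.subset_span hf)

end Pool.Agent.H19.VGH
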